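import Pool.Agent.Helper69_Fine.Extv

/-!
Null sets of convex polygons in vertex coordinates: a property of the normals and the support
numbers which holds for almost all angles and almost all support numbers holds for almost all
vertex coordinates.
-/

namespace Pool.Agent.AEU.H29

open MeasureTheory Complex Filter Topology Pool.Agent.H16Iso Pool.Agent.H62T Pool.Agent.H16F
open scoped ENNReal NNReal Fin.NatCast

open H62T.H85 (nrm off Ev)

variable {n : ℕ} [NeZero n]

/-- the unit vectors with given angles -/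
noncomputable def un (θ : Fin n → ℝ) (i : Fin n) : ℂ := Complex.exp (θ i * I)

/-- the vertex on the sides `i - 1` and `i` -/
noncomputable def vt (p : (Fin n → ℝ) × (Fin n → ℝ)) (i : Fin n) : ℂ :=
  (p.2 i : ℂ) * un p.1 i
    + (((p.2 i * Real.cos (p.1 i - p.1 (i - 1)) - p.2 (i - 1))
        / Real.sin (p.1 i - p.1 (i - 1)) : ℝ) : ℂ) * (un p.1 i * I)

/-- domain of the vertex map -/
def Dm (n : ℕ) [NeZero n] : Set ((Fin n → ℝ) × (Fin n → ℝ)) :=
  {p | ∀ i, Real.sin (p.1 i - p.1 (i - 1)) ≠ 0}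

theorem differentiableOn_vt : DifferentiableOn ℝ (vt (n := n)) (Dm n) := by
  intro p hp
  apply DifferentiableAt.differentiableWithinAt
  rw [differentiableAt_pi]
  intro i
  have h1 : DifferentiableAt ℝ (fun p : (Fin n → ℝ) × (Fin n → ℝ) => p.1 i) p := by fun_prop
  have h2 : DifferentiableAt ℝ (fun p : (Fin n → ℝ) × (Fin n → ℝ) => p.1 (i - 1)) p := by
    fun_prop
  have h3 : DifferentiableAt ℝ (fun p : (Fin n → ℝ) × (Fin n → ℝ) => p.2 i) p := by fun_prop
  have h4 : DifferentiableAt ℝ (fun p : (Fin n → ℝ) × (Fin n → ℝ) => p.2 (i - 1)) p := by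
    fun_prop
  have h5 : DifferentiableAt ℝ (fun p : (Fin n → ℝ) × (Fin n → ℝ) => un p.1 i) p := by
    unfold un
    exact ((Complex.ofRealCLM.differentiableAt.comp p h1).mul_const I).cexp
  have h7 : DifferentiableAt ℝ (fun p : (Fin n → ℝ) × (Fin n → ℝ) => p.1 i - p.1 (i - 1)) p :=
    h1.sub h2
  have h8 : DifferentiableAt ℝ (fun p : (Fin n → ℝ) × (Fin n → ℝ) =>
      Real.sin (p.1 i - p.1 (i - 1))) p := h7.sin
  have h6 : DifferentiableAt ℝ (fun p : (Fin n → ℝ) × (Fin n → ℝ) =>
      (p.2 i * Real.cos (p.1 i - p.1 (i - 1)) - p.2 (i - 1))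
        / Real.sin (p.1 i - p.1 (i - 1))) p := by
    have h9 : Real.sin (p.1 i - p.1 (i - 1)) ≠ 0 := hp i
    simp only [div_eq_mul_inv]
    exact ((h3.fun_mul h7.cos).fun_sub h4).fun_mul (h8.fun_inv h9)
  unfold vt
  exact ((Complex.ofRealCLM.differentiableAt.comp p h3).mul h5).add
    ((Complex.ofRealCLM.differentiableAt.comp p h6).mul (h5.mul_const I))

theorem exists_angles (hn : 3 ≤ n) {v : Fin n → ℂ} (hv : H62T.H85.CC v) :
    ∃ θ : Fin n → ℝ, un θ = nrm v ∧ (θ, off v) ∈ Dm n ∧ vt (θ, off v) = v := by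
  have N := H16F.H69.nm_of_cc hn hv
  have hu : un (fun i => arg (nrm v i)) = nrm v := by
    funext i
    have h := Complex.norm_mul_exp_arg_mul_I (nrm v i)
    rw [N.unit i, ofReal_one, one_mul] at h
    exact h
  have hcs : ∀ i, Real.cos (arg (nrm v i) - arg (nrm v (i - 1))) = Real.cos (H16F.H69.bt v (i - 1))
      ∧ Real.sin (arg (nrm v i) - arg (nrm v (i - 1))) = Real.sin (H16F.H69.bt v (i - 1)) := by
    intro i
    have h1 := N.step (i - 1)
    rw [sub_add_cancel, ← congrFun hu i, ← congrFun hu (i - 1)] at h1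
    have h2 : Complex.exp (((arg (nrm v i) - arg (nrm v (i - 1)) : ℝ) : ℂ) * I)
        = Complex.exp ((H16F.H69.bt v (i - 1) : ℝ) * I) := by
      push_cast
      rw [sub_mul, Complex.exp_sub]
      unfold un at h1
      rw [h1, mul_comm, mul_div_assoc, div_self (Complex.exp_ne_zero _), mul_one]
    rw [Complex.exp_mul_I, Complex.exp_mul_I] at h2
    have h3 := congrArg Complex.re h2
    have h4 := congrArg Complex.im h2
    simp only [← Complex.ofReal_cos, ← Complex.ofReal_sin, Complex.add_re, Complex.add_im,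
      Complex.ofReal_re, Complex.ofReal_im, Complex.mul_re, Complex.mul_im, Complex.I_re,
      Complex.I_im, mul_zero, mul_one, sub_zero, add_zero, zero_add] at h3 h4
    exact ⟨h3, h4⟩
  refine ⟨fun i => arg (nrm v i), hu, ?_, ?_⟩
  · intro i
    rw [(hcs i).2]
    exact (H16F.H69.sin_pos N (i - 1)).ne'
  · funext i
    rw [H16F.H69.eq_vx hn hv i]
    unfold vt H16F.H69.vx
    rw [(hcs i).1, (hcs i).2, hu]

/-- linear coordinates -/
noncomputable def Lc (n : ℕ) : (Fin n → ℂ) ≃L[ℝ] ((Fin n → ℝ) × (Fin n → ℝ)) :=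
  ContinuousLinearEquiv.ofFinrankEq (by
    rw [Module.finrank_prod, Module.finrank_pi_fintype, Module.finrank_pi_fintype,
      Finset.sum_const, Finset.sum_const, Complex.finrank_real_complex, Module.finrank_self,
      smul_eq_mul, smul_eq_mul]
    omega)

theorem null_preimage {E F : Type*} [NormedAddCommGroup E] [NormedSpace ℝ E] [MeasurableSpace E]
    [BorelSpace E] [FiniteDimensional ℝ E] [NormedAddCommGroup F] [NormedSpace ℝ F]
    [MeasurableSpace F] [BorelSpace F] [FiniteDimensional ℝ F] (μ : Measure E)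
    [μ.IsAddHaarMeasure] (ν : Measure F) [ν.IsAddHaarMeasure] (L : E ≃L[ℝ] F) {s : Set F}
    (h : ν s = 0) : μ (L ⁻¹' s) = 0 := by
  have h1 : (Measure.map L μ).IsAddHaarMeasure := ContinuousLinearEquiv.isAddHaarMeasure_map L μ
  have h2 : Measure.map L μ ≪ ν := Measure.absolutelyContinuous_isAddHaarMeasure _ _
  have h3 := h2 h
  have h4 : MeasurableEmbedding L := L.toHomeomorph.measurableEmbedding
  rwa [h4.map_apply] at h3

/-- a property of the normals and the support numbers which holds for almost all angles and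
support numbers holds for almost all convex polygons, in vertex coordinates -/
theorem ae_chart (hn : 3 ≤ n) {G : (Fin n → ℂ) → (Fin n → ℝ) → Prop}
    (h : ∀ᵐ p : (Fin n → ℝ) × (Fin n → ℝ), G (un p.1) p.2) :
    ∀ᵐ v : Fin n → ℂ, H62T.H85.CC v → G (nrm v) (off v) := by
  have h0 : (volume : Measure ((Fin n → ℝ) × (Fin n → ℝ))) {p | ¬ G (un p.1) p.2} = 0 := h
  have hA : (volume : Measure ((Fin n → ℝ) × (Fin n → ℝ))).IsAddHaarMeasure :=
    Measure.prod.instIsAddHaarMeasure _ _
  have h1 : (volume : Measure ((Fin n → ℝ) × (Fin n → ℝ)))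
      ((fun p => Lc n (vt p)) '' ({p | ¬ G (un p.1) p.2} ∩ Dm n)) = 0 := by
    apply addHaar_image_eq_zero_of_differentiableOn_of_addHaar_eq_zero
    · intro p hp
      exact (Lc n).differentiable.differentiableAt.comp_differentiableWithinAt p
        ((differentiableOn_vt p hp.2).mono Set.inter_subset_right)
    · exact measure_mono_null Set.inter_subset_left h0
  have h2 := null_preimage (volume : Measure (Fin n → ℂ)) _ (Lc n) h1
  rw [ae_iff]
  refine measure_mono_null ?_ h2
  intro v hv
  simp only [Set.mem_ofPred_eq, Classical.not_imp] at hv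
  obtain ⟨hc, hg⟩ := hv
  obtain ⟨θ, h3, h4, h5⟩ := exists_angles hn hc
  refine ⟨(θ, off v), ⟨?_, h4⟩, ?_⟩
  · simp only [Set.mem_ofPred_eq]
    rw [h3]
    exact hg
  · simp only
    rw [h5]

end Pool.Agent.AEU.H29
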