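import Pool.Agent.Helper29_AEU.Lin

/-!
The functionals of the critical lengths are different, for generic normals.
-/

namespace Pool.Agent.AEU.H29

open MeasureTheory Complex Filter Topology Pool.Agent.H16Iso Pool.Agent.H62T Pool.Agent.H16F

variable {n : ℕ}

theorem ac_pos {u : Fin n → ℂ} (hu : GA u) {i j k : Fin n} (hd : Di i j k) {m : Fin n}
    (hm : m = i ∨ m = j ∨ m = k) : 0 < ac u i j k m := by
  obtain ⟨h1, h2, h3⟩ := hd
  unfold ac
  split_ifs with e1 e2 e3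
  · exact abs_pos.2 (hu.dt0 _ _ h3)
  · exact abs_pos.2 (hu.dt0 _ _ h2.symm)
  · exact abs_pos.2 (hu.dt0 _ _ h1)
  · exact absurd hm (by simp [e1, e2, e3])

theorem ac_zero {u : Fin n → ℂ} {i j k m : Fin n} (hm : ¬ (m = i ∨ m = j ∨ m = k)) :
    ac u i j k m = 0 := by
  simp only [not_or] at hm
  unfold ac
  rw [if_neg hm.1, if_neg hm.2.1, if_neg hm.2.2]

theorem key {u : Fin n → ℂ} (hu : GA u) {i j k i' j' k' : Fin n} (hd : Di i j k)
    (hd' : Di i' j' k') {c c' : ℝ} (hc : c ≠ 0) (hc' : c' ≠ 0)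
    (hp : Sa i j k i' j' k' → |c| ≠ |c'|) :
    ∃ m, ac u i j k m / |c| ≠ ac u i' j' k' m / |c'| := by
  have p1 : 0 < |c| := abs_pos.2 hc
  have p2 : 0 < |c'| := abs_pos.2 hc'
  by_cases hs : Sa i j k i' j' k'
  · refine ⟨i, ?_⟩
    rw [ac_same u hs hd hd']
    have h1 := ac_pos hu hd' ((hs i).1 (Or.inl rfl))
    intro e
    apply hp hs
    rw [div_eq_div_iff p1.ne' p2.ne'] at e
    exact (mul_left_cancel₀ h1.ne' e).symm
  · unfold Sa at hs
    push Not at hs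
    obtain ⟨m, hm⟩ := hs
    refine ⟨m, ?_⟩
    rcases hm with ⟨h1, h2⟩ | ⟨h1, h2⟩
    · rw [ac_zero (u := u) (i := i') (j := j') (k := k') (by tauto), zero_div]
      exact (div_pos (ac_pos hu hd h1) p1).ne'
    · rw [ac_zero (u := u) (i := i) (j := j) (k := k) (by tauto), zero_div]
      exact (div_pos (ac_pos hu hd' h2) p2).ne

theorem sq_dt_ip {a b : ℂ} (ha : ‖a‖ = 1) (hb : ‖b‖ = 1) : dt a b ^ 2 + ip a b ^ 2 = 1 := by
  have h1 : a.re ^ 2 + a.im ^ 2 = 1 := by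
    have := Complex.sq_norm a
    rw [ha, Complex.normSq_apply] at this
    nlinarith
  have h2 : b.re ^ 2 + b.im ^ 2 = 1 := by
    have := Complex.sq_norm b
    rw [hb, Complex.normSq_apply] at this
    nlinarith
  unfold dt ip
  linear_combination (b.re ^ 2 + b.im ^ 2) * h1 + h2

/-- generic unit vectors -/
structure GU (u : Fin n → ℂ) : Prop extends GA u where
  nr : ∀ i, ‖u i‖ = 1

theorem GU.dtinj {u : Fin n → ℂ} (hu : GU u) {i j k l : Fin n} (hij : i ≠ j) (hkl : k ≠ l)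
    (h : |dt (u i) (u j)| = |dt (u k) (u l)|) : (i = k ∧ j = l) ∨ (i = l ∧ j = k) := by
  apply hu.inj i j k l hij hkl
  have h1 := sq_dt_ip (hu.nr i) (hu.nr j)
  have h2 := sq_dt_ip (hu.nr k) (hu.nr l)
  rw [← sq_eq_sq_iff_abs_eq_abs] at h
  rw [← sq_eq_sq_iff_abs_eq_abs]
  linarith

theorem GU.dtlt {u : Fin n → ℂ} (hu : GU u) {i j : Fin n} (hij : i ≠ j) :
    |dt (u i) (u j)| < 1 := by
  have h1 := sq_dt_ip (hu.nr i) (hu.nr j)
  have h2 : 0 < ip (u i) (u j) ^ 2 := by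
    have := hu.ne0 i j hij
    positivity
  rw [← sq_lt_one_iff_abs_lt_one]
  linarith

theorem GU.dtpos {u : Fin n → ℂ} (hu : GU u) {i j : Fin n} (hij : i ≠ j) :
    0 < |dt (u i) (u j)| := abs_pos.2 (hu.dt0 _ _ hij)

theorem GU.iplt {u : Fin n → ℂ} (hu : GU u) {i j : Fin n} (hij : i ≠ j) :
    |ip (u i) (u j)| < 1 := by
  have h1 := sq_dt_ip (hu.nr i) (hu.nr j)
  have h2 : 0 < dt (u i) (u j) ^ 2 := by
    have := hu.dt0 i j hij
    positivity
  rw [← sq_lt_one_iff_abs_lt_one]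
  linarith

theorem GU.dt_ne {u : Fin n → ℂ} (hu : GU u) {i j k : Fin n} (hij : i ≠ j) (hik : i ≠ k)
    (hjk : j ≠ k) : |dt (u i) (u j)| ≠ |dt (u i) (u k)| := by
  intro e
  rcases hu.dtinj hij hik e with ⟨_, h⟩ | ⟨h, _⟩
  · exact hjk h
  · exact hik h

/-- the factor in the length of a side -/
noncomputable def pA (u : Fin n → ℂ) (i j k : Fin n) : ℝ := dt (u i) (u j) * dt (u j) (u k)

theorem pA_ne {u : Fin n → ℂ} (hu : GA u) {i j k : Fin n} (hd : Di i j k) : pA u i j k ≠ 0 :=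
  mul_ne_zero (hu.dt0 _ _ hd.1) (hu.dt0 _ _ hd.2.2)

theorem pA_aa {u : Fin n → ℂ} (hu : GU u) {i j k i' j' k' : Fin n} (hd : Di i j k)
    (hd' : Di i' j' k') (hn : ¬ (j = j' ∧ ((i = i' ∧ k = k') ∨ (i = k' ∧ k = i'))))
    (hs : Sa i j k i' j' k') : |pA u i j k| ≠ |pA u i' j' k'| := by
  obtain ⟨h1, h2, h3⟩ := id hd
  have a := (hu.dtpos h1).ne'
  have b := (hu.dtpos h2).ne'
  have c := (hu.dtpos h3).ne'
  have ab := hu.dt_ne h1 h2 h3
  have ca := hu.dt_ne h1.symm h3 h2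
  have bc := hu.dt_ne h2.symm h3.symm h1
  unfold pA
  rw [abs_mul, abs_mul]
  intro e
  rw [dt_comm' (u j) (u i)] at ca
  rw [dt_comm' (u k) (u i), dt_comm' (u k) (u j)] at bc
  rcases hs.cases hd hd' with ⟨e1, e2, e3⟩ | ⟨e1, e2, e3⟩ | ⟨e1, e2, e3⟩ | ⟨e1, e2, e3⟩ |
    ⟨e1, e2, e3⟩ | ⟨e1, e2, e3⟩
  · exact hn ⟨e2.symm, Or.inl ⟨e1.symm, e3.symm⟩⟩
  · rw [e1, e2, e3, dt_comm' (u k) (u j)] at e
    exact ab (mul_right_cancel₀ c e)
  · rw [e1, e2, e3, dt_comm' (u j) (u i)] at e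
    exact bc (mul_left_cancel₀ a e).symm
  · rw [e1, e2, e3, mul_comm, dt_comm' (u k) (u i)] at e
    exact ab (mul_left_cancel₀ c e)
  · rw [e1, e2, e3, mul_comm, dt_comm' (u k) (u i)] at e
    exact bc (mul_right_cancel₀ a e).symm
  · exact hn ⟨e2.symm, Or.inr ⟨e3.symm, e1.symm⟩⟩

theorem pB_bb {u : Fin n → ℂ} (hu : GU u) {i j k i' j' k' : Fin n} (hd : Di i j k)
    (hd' : Di i' j' k') (hn : ¬ (k = k' ∧ ((i = i' ∧ j = j') ∨ (i = j' ∧ j = i'))))
    (hs : Sa i j k i' j' k') : |dt (u i) (u j)| ≠ |dt (u i') (u j')| := by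
  obtain ⟨h1, h2, h3⟩ := id hd
  intro e
  rcases hu.dtinj h1 hd'.1 e with ⟨e1, e2⟩ | ⟨e1, e2⟩ <;> apply hn
  · refine ⟨?_, Or.inl ⟨e1, e2⟩⟩
    rcases (hs k).1 (Or.inr (Or.inr rfl)) with e3 | e3 | e3
    · exact absurd (e1.trans e3.symm) h2
    · exact absurd (e2.trans e3.symm) h3
    · exact e3
  · refine ⟨?_, Or.inr ⟨e1, e2⟩⟩
    rcases (hs k).1 (Or.inr (Or.inr rfl)) with e3 | e3 | e3
    · exact absurd (e2.trans e3.symm) h3
    · exact absurd (e1.trans e3.symm) h2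
    · exact e3

theorem pA_ab {u : Fin n → ℂ} (hu : GU u) {i j k i' j' k' : Fin n} (hd : Di i j k)
    (hd' : Di i' j' k') (hs : Sa i j k i' j' k') : |pA u i j k| ≠ |dt (u i') (u j')| := by
  obtain ⟨h1, h2, h3⟩ := id hd
  have a := hu.dtpos h1
  have c := hu.dtpos h3
  have a1 := hu.dtlt h1
  have c1 := hu.dtlt h3
  have t := hu.tri i j k h1 h2 h3
  unfold pA
  rw [abs_mul]
  have f1 : |dt (u i) (u j)| * |dt (u j) (u k)| < |dt (u i) (u j)| := by nlinarith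
  have f2 : |dt (u i) (u j)| * |dt (u j) (u k)| < |dt (u j) (u k)| := by nlinarith
  rcases hs.cases hd hd' with ⟨e1, e2, e3⟩ | ⟨e1, e2, e3⟩ | ⟨e1, e2, e3⟩ | ⟨e1, e2, e3⟩ |
    ⟨e1, e2, e3⟩ | ⟨e1, e2, e3⟩
  · rw [e1, e2]
    exact f1.ne
  · rw [e1, e2]
    exact t.symm
  · rw [e1, e2, dt_comm' (u j) (u i)]
    exact f1.ne
  · rw [e1, e2]
    exact f2.ne
  · rw [e1, e2, dt_comm' (u k) (u i)]
    exact t.symm
  · rw [e1, e2, dt_comm' (u k) (u j)]
    exact f2.ne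

theorem pA_lt {u : Fin n → ℂ} (hu : GU u) {i j k : Fin n} (hd : Di i j k) :
    |pA u i j k| < 1 := by
  obtain ⟨h1, h2, h3⟩ := hd
  have a := hu.dtpos h1
  have c := hu.dtpos h3
  have a1 := hu.dtlt h1
  have c1 := hu.dtlt h3
  unfold pA
  rw [abs_mul]
  nlinarith

/-- the reflected normal -/
noncomputable def Rn (u : Fin n → ℂ) (i j r : Fin n) : ℂ := u i * u j * (starRingEnd ℂ) (u r)

/-- half the length of the orthic triangle of the lines `i`, `q` and the reflected line `r` -/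
noncomputable def Fl (u : Fin n → ℂ) (i j q r : Fin n) (H : Fin n → ℝ) : ℝ :=
  |dt (u q) (Rn u i j r)| * H i + |dt (Rn u i j r) (u i)| * H q + |dt (u i) (u q)| *
    (H r + (H i - H j) * (dt (Rn u i j r) (u i + u j) / dt (u i) (u j)))

theorem Fl_lin (u : Fin n → ℂ) (i j q r : Fin n) : IsLinearMap ℝ (Fl u i j q r) :=
  ⟨fun x y => by simp only [Fl, Pi.add_apply]; ring,
    fun c x => by simp only [Fl, Pi.smul_apply, smul_eq_mul]; ring⟩

theorem dt_Rn {u : Fin n → ℂ} (hu : GU u) (i j r : Fin n) :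
    dt (Rn u i j r) (u i) = dt (u j) (u r) := by
  have h1 : (u i).re ^ 2 + (u i).im ^ 2 = 1 := by
    have := Complex.sq_norm (u i)
    rw [hu.nr, Complex.normSq_apply] at this
    nlinarith
  unfold Rn dt
  simp only [Complex.mul_re, Complex.mul_im, Complex.conj_re, Complex.conj_im]
  linear_combination ((u j).re * (u r).im - (u j).im * (u r).re) * h1

theorem key_flip {u : Fin n → ℂ} (hu : GU u) {i j q r a b c : Fin n} (hd : Di i j q)
    (hd' : Di i j r) (hqr : q ≠ r) (habc : Di a b c) :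
    ∃ m, |Fl u i j q r (Pi.single m 1)| ≠ |El u a b c (Pi.single m 1)| := by
  by_contra hcon
  push Not at hcon
  obtain ⟨h1, h2, h3⟩ := hd
  obtain ⟨-, h4, h5⟩ := hd'
  have hq := hcon q
  have hr := hcon r
  rw [abs_El_single u habc.1 habc.2.1 habc.2.2] at hq hr
  have eq1 : Fl u i j q r (Pi.single q 1) = |dt (u j) (u r)| := by
    unfold Fl
    rw [dt_Rn hu]
    simp [h2, h3, hqr, hqr.symm, h2.symm, h3.symm]
  have eq2 : Fl u i j q r (Pi.single r 1) = |dt (u i) (u q)| := by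
    unfold Fl
    simp [h4, h5, hqr, hqr.symm, h4.symm, h5.symm]
  rw [eq1, abs_abs] at hq
  rw [eq2, abs_abs] at hr
  have hqm : q = a ∨ q = b ∨ q = c := by
    by_contra hh
    rw [ac_zero hh] at hq
    exact (hu.dtpos h5).ne' hq
  have hrm : r = a ∨ r = b ∨ r = c := by
    by_contra hh
    rw [ac_zero hh] at hr
    exact (hu.dtpos h2).ne' hr
  obtain ⟨z, hz1, hz2⟩ : ∃ z, Di q r z ∧ Sa a b c q r z := by
    obtain ⟨g1, g2, g3⟩ := habc
    rcases hqm with rfl | rfl | rfl <;> rcases hrm with rfl | rfl | rfl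
    · exact absurd rfl hqr
    · exact ⟨c, ⟨g1, g2, g3⟩, fun m => by tauto⟩
    · exact ⟨b, ⟨g2, g1, g3.symm⟩, fun m => by tauto⟩
    · exact ⟨c, ⟨g1.symm, g3, g2⟩, fun m => by tauto⟩
    · exact absurd rfl hqr
    · exact ⟨a, ⟨g3, g1.symm, g2.symm⟩, fun m => by tauto⟩
    · exact ⟨b, ⟨g2.symm, g3.symm, g1⟩, fun m => by tauto⟩
    · exact ⟨a, ⟨g3.symm, g2.symm, g1.symm⟩, fun m => by tauto⟩
    · exact absurd rfl hqr
  rw [ac_same u hz2 habc hz1] at hq hr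
  obtain ⟨g1, g2, g3⟩ := hz1
  have e1 : ac u q r z q = |dt (u r) (u z)| := by
    unfold ac
    rw [if_pos rfl]
  have e2 : ac u q r z r = |dt (u z) (u q)| := by
    unfold ac
    rw [if_neg g1.symm, if_pos rfl]
  rw [e1] at hq
  rw [e2] at hr
  have f1 : z = j := by
    rcases hu.dtinj h5 g3 hq with ⟨w1, w2⟩ | ⟨w1, w2⟩
    · exact absurd w1 h5
    · exact w1.symm
  have f2 : z = i := by
    rcases hu.dtinj h2 g2.symm hr with ⟨w1, w2⟩ | ⟨w1, w2⟩
    · exact w1.symm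
    · exact absurd w1 h2
  exact h1 (f2.symm.trans f1)

end Pool.Agent.AEU.H29
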