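import Pool.Agent.Helper29_AEU.Coef

/-!
Almost all convex polygons are generic.
-/

namespace Pool.Agent.AEU.H29

open MeasureTheory Complex Filter Topology Pool.Agent.H16Iso Pool.Agent.H62T Pool.Agent.H16F
open scoped Fin.NatCast

variable {n : ℕ}

/-- genericity, in terms of the indices -/
structure GI (u : Fin n → ℂ) (H : Fin n → ℝ) : Prop where
  aa : ∀ i j k i' j' k', Di i j k → Di i' j' k' →
    ¬ (j = j' ∧ ((i = i' ∧ k = k') ∨ (i = k' ∧ k = i'))) →
    |Dl u i j k H / pA u i j k| ≠ |Dl u i' j' k' H / pA u i' j' k'|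
  bb : ∀ i j k i' j' k', Di i j k → Di i' j' k' →
    ¬ (k = k' ∧ ((i = i' ∧ j = j') ∨ (i = j' ∧ j = i'))) →
    |Dl u i j k H / dt (u i) (u j)| ≠ |Dl u i' j' k' H / dt (u i') (u j')|
  ab : ∀ i j k i' j' k', Di i j k → Di i' j' k' →
    |Dl u i j k H / pA u i j k| ≠ |Dl u i' j' k' H / dt (u i') (u j')|
  ss : ∀ i j k i' j' k', Di i j k → Di i' j' k' → ¬ Sa i j k i' j' k' →
    |El u i j k H| ≠ |El u i' j' k' H|
  sa : ∀ i j k i' j' k', Di i j k → Di i' j' k' →
    |El u i j k H| ≠ |Dl u i' j' k' H / pA u i' j' k'|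
  sb : ∀ i j k i' j' k', Di i j k → Di i' j' k' →
    |El u i j k H| ≠ |Dl u i' j' k' H / dt (u i') (u j')|
  fl : ∀ i j q r a b c, Di i j q → Di i j r → q ≠ r → Di a b c →
    |Fl u i j q r H| ≠ |El u a b c H|

theorem div_lin {l : (Fin n → ℝ) → ℝ} (h : IsLinearMap ℝ l) (c : ℝ) :
    IsLinearMap ℝ (fun H => l H / c) :=
  ⟨fun x y => by rw [h.map_add]; ring,
    fun c x => by rw [h.map_smul]; simp only [smul_eq_mul]; ring⟩

theorem measurable_un : Measurable (un (n := n)) := by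
  apply Continuous.measurable
  unfold un
  fun_prop

theorem measurable_dt {α : Type*} [MeasurableSpace α] {f g : α → ℂ} (hf : Measurable f)
    (hg : Measurable g) : Measurable fun x => dt (f x) (g x) := by
  unfold dt
  fun_prop

theorem measurable_Dl (i j k : Fin n) :
    Measurable fun p : (Fin n → ℂ) × (Fin n → ℝ) => Dl p.1 i j k p.2 := by
  have h : ∀ i j, Measurable fun p : (Fin n → ℂ) × (Fin n → ℝ) => dt (p.1 i) (p.1 j) :=
    fun i j => measurable_dt (by fun_prop) (by fun_prop)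
  have h2 : ∀ i, Measurable fun p : (Fin n → ℂ) × (Fin n → ℝ) => p.2 i := fun i => by fun_prop
  unfold Dl
  exact (((h j k).mul (h2 i)).add ((h k i).mul (h2 j))).add ((h i j).mul (h2 k))

theorem measurable_El (i j k : Fin n) :
    Measurable fun p : (Fin n → ℂ) × (Fin n → ℝ) => El p.1 i j k p.2 := by
  have h : ∀ i j, Measurable fun p : (Fin n → ℂ) × (Fin n → ℝ) => |dt (p.1 i) (p.1 j)| :=
    fun i j => (measurable_dt (by fun_prop) (by fun_prop)).abs
  have h2 : ∀ i, Measurable fun p : (Fin n → ℂ) × (Fin n → ℝ) => p.2 i := fun i => by fun_prop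
  unfold El
  exact (((h j k).mul (h2 i)).add ((h k i).mul (h2 j))).add ((h i j).mul (h2 k))

theorem measurable_pA (i j k : Fin n) :
    Measurable fun p : (Fin n → ℂ) × (Fin n → ℝ) => pA p.1 i j k := by
  have h : ∀ i j, Measurable fun p : (Fin n → ℂ) × (Fin n → ℝ) => dt (p.1 i) (p.1 j) :=
    fun i j => measurable_dt (by fun_prop) (by fun_prop)
  unfold pA
  exact (h i j).mul (h j k)

theorem measurable_pB (i j : Fin n) :
    Measurable fun p : (Fin n → ℂ) × (Fin n → ℝ) => dt (p.1 i) (p.1 j) :=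
  measurable_dt (by fun_prop) (by fun_prop)

theorem measurable_Fl (i j q r : Fin n) :
    Measurable fun p : (Fin n → ℂ) × (Fin n → ℝ) => Fl p.1 i j q r p.2 := by
  have h0 : ∀ i, Measurable fun p : (Fin n → ℂ) × (Fin n → ℝ) => p.1 i := fun i => by fun_prop
  have hR : Measurable fun p : (Fin n → ℂ) × (Fin n → ℝ) => Rn p.1 i j r := by
    unfold Rn
    exact ((h0 i).mul (h0 j)).mul (Complex.continuous_conj.measurable.comp (h0 r))
  have h2 : ∀ i, Measurable fun p : (Fin n → ℂ) × (Fin n → ℝ) => p.2 i := fun i => by fun_prop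
  unfold Fl
  exact ((((measurable_dt (h0 q) hR).abs.mul (h2 i)).add
    ((measurable_dt hR (h0 i)).abs.mul (h2 q))).add
      ((measurable_dt (h0 i) (h0 q)).abs.mul ((h2 r).add (((h2 i).sub (h2 j)).mul
        ((measurable_dt hR ((h0 i).add (h0 j))).div (measurable_dt (h0 i) (h0 j)))))))

theorem norm_un (θ : Fin n → ℝ) (i : Fin n) : ‖un θ i‖ = 1 := by
  unfold un
  exact Complex.norm_exp_ofReal_mul_I _

theorem prod_ae (hang : AngStatement) {f g : (Fin n → ℂ) → (Fin n → ℝ) → ℝ}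
    (hf : Measurable fun p : (Fin n → ℂ) × (Fin n → ℝ) => f p.1 p.2)
    (hg : Measurable fun p : (Fin n → ℂ) × (Fin n → ℝ) => g p.1 p.2)
    (h : ∀ u, GU u → ∀ᵐ H : Fin n → ℝ, |f u H| ≠ |g u H|) :
    ∀ᵐ p : (Fin n → ℝ) × (Fin n → ℝ), |f (un p.1) p.2| ≠ |g (un p.1) p.2| := by
  have hm : Measurable fun p : (Fin n → ℝ) × (Fin n → ℝ) => ((un p.1, p.2) :
      (Fin n → ℂ) × (Fin n → ℝ)) := (measurable_un.comp measurable_fst).prodMk measurable_snd
  have hs : MeasurableSet {p : (Fin n → ℝ) × (Fin n → ℝ) |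
      |f (un p.1) p.2| = |g (un p.1) p.2|} :=
    measurableSet_eq_fun ((hf.comp hm).abs) ((hg.comp hm).abs)
  have h1 : (volume : Measure ((Fin n → ℝ) × (Fin n → ℝ))) {p | |f (un p.1) p.2| =
      |g (un p.1) p.2|} = 0 := by
    rw [Measure.volume_eq_prod, Measure.measure_prod_null hs]
    filter_upwards [hang n] with θ hθ
    have h2 := h (un θ) ⟨hθ, norm_un θ⟩
    rw [ae_iff] at h2
    simpa using h2
  rw [ae_iff]
  simpa using h1

theorem gi_ae (hang : AngStatement) :
    ∀ᵐ p : (Fin n → ℝ) × (Fin n → ℝ), GI (un p.1) p.2 := by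
  have kk : ∀ {i j k i' j' k' : Fin n}, Di i j k → Di i' j' k' → ∀ (c c' : (Fin n → ℂ) → ℝ)
      (l l' : (Fin n → ℂ) → (Fin n → ℝ) → ℝ),
      (∀ u, IsLinearMap ℝ (l u)) → (∀ u, IsLinearMap ℝ (l' u)) →
      (∀ u m, |l u (Pi.single m 1)| = ac u i j k m) →
      (∀ u m, |l' u (Pi.single m 1)| = ac u i' j' k' m) →
      (∀ u, GU u → c u ≠ 0) → (∀ u, GU u → c' u ≠ 0) →
      (∀ u, GU u → Sa i j k i' j' k' → |c u| ≠ |c' u|) →
      ∀ u, GU u → ∀ᵐ H : Fin n → ℝ, |l u H / c u| ≠ |l' u H / c' u| := by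
    intro i j k i' j' k' hd hd' c c' l l' h1 h2 h3 h4 h5 h6 h7 u hu
    apply ae_abs_ne (div_lin (h1 u) _) (div_lin (h2 u) _)
    obtain ⟨m, hm⟩ := key hu.toGA hd hd' (h5 u hu) (h6 u hu) (h7 u hu)
    refine ⟨m, ?_⟩
    rw [abs_div, abs_div, h3, h4]
    exact hm
  have haa : ∀ᵐ p : (Fin n → ℝ) × (Fin n → ℝ), ∀ i j k i' j' k', Di i j k → Di i' j' k' →
      ¬ (j = j' ∧ ((i = i' ∧ k = k') ∨ (i = k' ∧ k = i'))) →
      |Dl (un p.1) i j k p.2 / pA (un p.1) i j k|
        ≠ |Dl (un p.1) i' j' k' p.2 / pA (un p.1) i' j' k'| := by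
    simp only [ae_all_iff]
    intro i j k i' j' k' hd hd' hn
    refine prod_ae (f := fun u H => Dl u i j k H / pA u i j k)
      (g := fun u H => Dl u i' j' k' H / pA u i' j' k') hang
      ((measurable_Dl i j k).div (measurable_pA i j k))
      ((measurable_Dl i' j' k').div (measurable_pA i' j' k')) ?_
    exact kk hd hd' (fun u => pA u i j k) (fun u => pA u i' j' k') (fun u => Dl u i j k)
      (fun u => Dl u i' j' k') (fun u => Dl_lin u i j k) (fun u => Dl_lin u i' j' k')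
      (fun u m => abs_Dl_single u hd.1 hd.2.1 hd.2.2 m)
      (fun u m => abs_Dl_single u hd'.1 hd'.2.1 hd'.2.2 m) (fun u hu => pA_ne hu.toGA hd)
      (fun u hu => pA_ne hu.toGA hd') (fun u hu hs => pA_aa hu hd hd' hn hs)
  have hbb : ∀ᵐ p : (Fin n → ℝ) × (Fin n → ℝ), ∀ i j k i' j' k', Di i j k → Di i' j' k' →
      ¬ (k = k' ∧ ((i = i' ∧ j = j') ∨ (i = j' ∧ j = i'))) →
      |Dl (un p.1) i j k p.2 / dt (un p.1 i) (un p.1 j)|
        ≠ |Dl (un p.1) i' j' k' p.2 / dt (un p.1 i') (un p.1 j')| := by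
    simp only [ae_all_iff]
    intro i j k i' j' k' hd hd' hn
    refine prod_ae (f := fun u H => Dl u i j k H / dt (u i) (u j))
      (g := fun u H => Dl u i' j' k' H / dt (u i') (u j')) hang
      ((measurable_Dl i j k).div (measurable_pB i j))
      ((measurable_Dl i' j' k').div (measurable_pB i' j')) ?_
    exact kk hd hd' (fun u => dt (u i) (u j)) (fun u => dt (u i') (u j')) (fun u => Dl u i j k)
      (fun u => Dl u i' j' k') (fun u => Dl_lin u i j k) (fun u => Dl_lin u i' j' k')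
      (fun u m => abs_Dl_single u hd.1 hd.2.1 hd.2.2 m)
      (fun u m => abs_Dl_single u hd'.1 hd'.2.1 hd'.2.2 m) (fun u hu => hu.dt0 _ _ hd.1)
      (fun u hu => hu.dt0 _ _ hd'.1) (fun u hu hs => pB_bb hu hd hd' hn hs)
  have hab : ∀ᵐ p : (Fin n → ℝ) × (Fin n → ℝ), ∀ i j k i' j' k', Di i j k → Di i' j' k' →
      |Dl (un p.1) i j k p.2 / pA (un p.1) i j k|
        ≠ |Dl (un p.1) i' j' k' p.2 / dt (un p.1 i') (un p.1 j')| := by
    simp only [ae_all_iff]
    intro i j k i' j' k' hd hd'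
    refine prod_ae (f := fun u H => Dl u i j k H / pA u i j k)
      (g := fun u H => Dl u i' j' k' H / dt (u i') (u j')) hang
      ((measurable_Dl i j k).div (measurable_pA i j k))
      ((measurable_Dl i' j' k').div (measurable_pB i' j')) ?_
    exact kk hd hd' (fun u => pA u i j k) (fun u => dt (u i') (u j')) (fun u => Dl u i j k)
      (fun u => Dl u i' j' k') (fun u => Dl_lin u i j k) (fun u => Dl_lin u i' j' k')
      (fun u m => abs_Dl_single u hd.1 hd.2.1 hd.2.2 m)
      (fun u m => abs_Dl_single u hd'.1 hd'.2.1 hd'.2.2 m) (fun u hu => pA_ne hu.toGA hd)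
      (fun u hu => hu.dt0 _ _ hd'.1) (fun u hu hs => pA_ab hu hd hd' hs)
  have hss : ∀ᵐ p : (Fin n → ℝ) × (Fin n → ℝ), ∀ i j k i' j' k', Di i j k → Di i' j' k' →
      ¬ Sa i j k i' j' k' → |El (un p.1) i j k p.2| ≠ |El (un p.1) i' j' k' p.2| := by
    simp only [ae_all_iff]
    intro i j k i' j' k' hd hd' hn
    refine prod_ae (f := fun u H => El u i j k H)
      (g := fun u H => El u i' j' k' H) hang
      (measurable_El i j k) (measurable_El i' j' k') ?_
    intro u hu
    have := kk hd hd' (fun u => 1) (fun u => 1) (fun u => El u i j k)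
      (fun u => El u i' j' k') (fun u => El_lin u i j k) (fun u => El_lin u i' j' k')
      (fun u m => abs_El_single u hd.1 hd.2.1 hd.2.2 m)
      (fun u m => abs_El_single u hd'.1 hd'.2.1 hd'.2.2 m) (fun u hu => one_ne_zero)
      (fun u hu => one_ne_zero) (fun u hu hs => absurd hs hn) u hu
    simpa using this
  have hsa : ∀ᵐ p : (Fin n → ℝ) × (Fin n → ℝ), ∀ i j k i' j' k', Di i j k → Di i' j' k' →
      |El (un p.1) i j k p.2| ≠ |Dl (un p.1) i' j' k' p.2 / pA (un p.1) i' j' k'| := by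
    simp only [ae_all_iff]
    intro i j k i' j' k' hd hd'
    refine prod_ae (f := fun u H => El u i j k H)
      (g := fun u H => Dl u i' j' k' H / pA u i' j' k') hang
      (measurable_El i j k)
      ((measurable_Dl i' j' k').div (measurable_pA i' j' k')) ?_
    intro u hu
    have := kk hd hd' (fun u => 1) (fun u => pA u i' j' k') (fun u => El u i j k)
      (fun u => Dl u i' j' k') (fun u => El_lin u i j k) (fun u => Dl_lin u i' j' k')
      (fun u m => abs_El_single u hd.1 hd.2.1 hd.2.2 m)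
      (fun u m => abs_Dl_single u hd'.1 hd'.2.1 hd'.2.2 m) (fun u hu => one_ne_zero)
      (fun u hu => pA_ne hu.toGA hd') (fun u hu hs => by
        rw [abs_one]
        exact (pA_lt hu hd').ne') u hu
    simpa using this
  have hsb : ∀ᵐ p : (Fin n → ℝ) × (Fin n → ℝ), ∀ i j k i' j' k', Di i j k → Di i' j' k' →
      |El (un p.1) i j k p.2| ≠ |Dl (un p.1) i' j' k' p.2 / dt (un p.1 i') (un p.1 j')| := by
    simp only [ae_all_iff]
    intro i j k i' j' k' hd hd'
    refine prod_ae (f := fun u H => El u i j k H)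
      (g := fun u H => Dl u i' j' k' H / dt (u i') (u j')) hang
      (measurable_El i j k)
      ((measurable_Dl i' j' k').div (measurable_pB i' j')) ?_
    intro u hu
    have := kk hd hd' (fun u => 1) (fun u => dt (u i') (u j')) (fun u => El u i j k)
      (fun u => Dl u i' j' k') (fun u => El_lin u i j k) (fun u => Dl_lin u i' j' k')
      (fun u m => abs_El_single u hd.1 hd.2.1 hd.2.2 m)
      (fun u m => abs_Dl_single u hd'.1 hd'.2.1 hd'.2.2 m) (fun u hu => one_ne_zero)
      (fun u hu => hu.dt0 _ _ hd'.1) (fun u hu hs => by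
        rw [abs_one]
        exact (hu.dtlt hd'.1).ne') u hu
    simpa using this
  have hfl : ∀ᵐ p : (Fin n → ℝ) × (Fin n → ℝ), ∀ i j q r a b c, Di i j q → Di i j r → q ≠ r →
      Di a b c → |Fl (un p.1) i j q r p.2| ≠ |El (un p.1) a b c p.2| := by
    simp only [ae_all_iff]
    intro i j q r a b c hd hd' hqr habc
    refine prod_ae (f := fun u H => Fl u i j q r H)
      (g := fun u H => El u a b c H) hang
      (measurable_Fl i j q r) (measurable_El a b c) ?_
    intro u hu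
    exact ae_abs_ne (Fl_lin u i j q r) (El_lin u a b c) (key_flip hu hd hd' hqr habc)
  filter_upwards [haa, hbb, hab, hss, hsa, hsb, hfl] with p h1 h2 h3 h4 h5 h6 h7
  exact ⟨h1, h2, h3, h4, h5, h6, h7⟩

end Pool.Agent.AEU.H29
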