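import Pool.Agent.Helper29_AEU.Genc

/-!
Almost all convex polygons are generic: assembly.
-/

namespace Pool.Agent.AEU.H29

open MeasureTheory Complex Filter Topology Pool.Agent.H16Iso Pool.Agent.H62T Pool.Agent.H16F
open scoped Fin.NatCast

open H62T.H85 (nrm off Ev)

variable {n : ℕ}

theorem ip_mix (a x y : ℂ) (t : ℝ) :
    ip a ((1 - t : ℝ) * x + (t : ℝ) * y) = (1 - t) * ip a x + t * ip a y := by
  unfold ip
  simp only [Complex.add_re, Complex.add_im, Complex.mul_re, Complex.mul_im, Complex.ofReal_re,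
    Complex.ofReal_im]
  ring

theorem mem_sides {u : Fin n → ℂ} {H : Fin n → ℝ} {s : HP} :
    s ∈ sides u H ↔ ∃ i, (u i, H i) = s := by
  unfold sides
  simp

theorem bounded_closed [NeZero n] (hn : 3 ≤ n) {v : Fin n → ℂ} (hv : H62T.H85.CC v) :
    Bornology.IsBounded (Cl (sides (nrm v) (off v))) := by
  have hb : Bornology.IsBounded (Poly (nrm v) (off v)) := by
    rw [← H62T.H85.poly_eq hn hv]
    exact (((Set.finite_range v).isCompact_convexHull (𝕜 := ℝ)).isBounded).subset interior_subset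
  refine hb.closure.subset ?_
  intro x hx
  obtain ⟨y, hy⟩ := H62T.H85.poly_nonempty hn hv
  have hlim : Tendsto (fun t : ℝ => ((1 - t : ℝ) : ℂ) * x + (t : ℝ) * y) (𝓝[>] 0) (𝓝 x) := by
    have h1 : Tendsto (fun t : ℝ => ((1 - t : ℝ) : ℂ) * x + (t : ℝ) * y) (𝓝 0)
        (𝓝 (((1 - 0 : ℝ) : ℂ) * x + (0 : ℝ) * y)) := by
      apply Continuous.tendsto
      fun_prop
    simp only [sub_zero, ofReal_one, one_mul, ofReal_zero, zero_mul, add_zero] at h1
    exact h1.mono_left nhdsWithin_le_nhds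
  refine mem_closure_of_tendsto hlim ?_
  have h1 : ∀ᶠ t : ℝ in 𝓝[>] 0, t < 1 := by
    have := Ioo_mem_nhdsGT (show (0 : ℝ) < 1 by norm_num)
    filter_upwards [this] with t ht using ht.2
  filter_upwards [h1, self_mem_nhdsWithin] with t ht1 ht0 i
  rw [ip_mix]
  have h2 := hx (nrm v i, off v i) (mem_sides.2 ⟨i, rfl⟩)
  have h3 := hy i
  have h4 : (0 : ℝ) < t := ht0
  simp only at h2
  nlinarith

theorem pg_sides [NeZero n] (hn : 3 ≤ n) {v : Fin n → ℂ} (hv : H62T.H85.CC v)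
    (hinj : Function.Injective fun i => ((nrm v i, off v i) : HP)) :
    Pg (sides (nrm v) (off v)) where
  unit := by
    intro s hs
    obtain ⟨i, rfl⟩ := mem_sides.1 hs
    exact H62T.H85.norm_nrm hn hv i
  side := by
    intro s hs
    obtain ⟨i, rfl⟩ := mem_sides.1 hs
    refine ⟨((1 - (1 / 2) : ℝ) : ℂ) * v i + ((1 / 2 : ℝ) : ℂ) * v (i + 1), ?_, ?_⟩
    · rw [ip_mix]
      simp only
      rw [H62T.H85.off_succ]
      unfold off
      ring
    · intro t ht hne
      obtain ⟨j, rfl⟩ := mem_sides.1 ht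
      have hji : j ≠ i := by
        rintro rfl
        exact hne rfl
      simp only
      rw [ip_mix]
      have h1 := H62T.H85.le_off hn hv j i
      have h2 := H62T.H85.le_off hn hv j (i + 1)
      have h3 : ip (nrm v j) (v (i + 1)) < off v j ∨ ip (nrm v j) (v i) < off v j := by
        by_cases h4 : i = j + 1
        · left
          apply H62T.H85.lt_off hn hv
          · rw [h4]
            exact (H62T.H85.succ_ne hn j).2
          · intro h5
            apply hji
            exact (add_right_cancel h5).symm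
        · right
          exact H62T.H85.lt_off hn hv (Ne.symm hji) h4
      rcases h3 with h3 | h3 <;> nlinarith
  bdd := bounded_closed hn hv
  card := by
    classical
    unfold sides
    rw [Finset.card_image_of_injective _ hinj]
    simpa using hn

theorem eA_eq {u : Fin n → ℂ} (hu : GU u) (H : Fin n → ℝ) {i j k : Fin n} (hd : Di i j k) :
    eA (u i, H i) (u j, H j) (u k, H k) = 2 * |Dl u i j k H / pA u i j k| := by
  obtain ⟨h1, h2, h3⟩ := hd
  have a : (dt (u i) (u j) : ℂ) ≠ 0 := by exact_mod_cast hu.dt0 _ _ h1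
  have b : (dt (u j) (u k) : ℂ) ≠ 0 := by exact_mod_cast hu.dt0 _ _ h3
  have e : vx (u i, H i) (u j, H j) - vx (u j, H j) (u k, H k)
      = ((-(Dl u i j k H / pA u i j k) : ℝ) : ℂ) * (I * u j) := by
    have id1 : (dt (u j) (u k) : ℂ) * u i + (dt (u k) (u i) : ℂ) * u j
        + (dt (u i) (u j) : ℂ) * u k = 0 := by
      apply Complex.ext <;> simp [dt] <;> ring
    unfold vx Dl pA
    push_cast
    field_simp
    linear_combination (H j : ℂ) * id1
  unfold eA
  rw [e, norm_mul, Complex.norm_real, norm_mul, Complex.norm_I, hu.nr, Real.norm_eq_abs, abs_neg]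
  ring

theorem eB_eq {u : Fin n → ℂ} (hu : GU u) (H : Fin n → ℝ) {i j q : Fin n} (hd : Di i j q) :
    eB (u i, H i) (u j, H j) (u q, H q) = 2 * |Dl u i j q H / dt (u i) (u j)| := by
  obtain ⟨h1, h2, h3⟩ := hd
  have a : dt (u i) (u j) ≠ 0 := hu.dt0 _ _ h1
  unfold eB
  congr 2
  have e : vx (u i, H i) (u j, H j) = (((1 / dt (u i) (u j)) : ℝ) : ℂ)
      * (I * ((H j : ℂ) * u i - (H i : ℂ) * u j)) := by
    unfold vx
    push_cast
    field_simp
  have e2 : ip (u q) (vx (u i, H i) (u j, H j))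
      = (H j * dt (u i) (u q) - H i * dt (u j) (u q)) / dt (u i) (u j) := by
    rw [e]
    unfold ip
    simp only [Complex.mul_re, Complex.mul_im, Complex.ofReal_re, Complex.ofReal_im,
      Complex.sub_re, Complex.sub_im, Complex.I_re, Complex.I_im]
    rw [eq_div_iff a]
    have : (1 / dt (u i) (u j)) * dt (u i) (u j) = 1 := by field_simp
    generalize 1 / dt (u i) (u j) = w at this ⊢
    unfold dt at this ⊢
    linear_combination ((u q).re * (H i * (u j).im - H j * (u i).im)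
      + (u q).im * (H j * (u i).re - H i * (u j).re)) * this
  rw [e2]
  unfold Dl
  have : dt (u q) (u i) = - dt (u i) (u q) := by unfold dt; ring
  rw [this]
  field_simp
  ring

theorem ell3_eq (u : Fin n → ℂ) (H : Fin n → ℝ) (i j k : Fin n) :
    ell3 (u i, H i) (u j, H j) (u k, H k) = 2 * El u i j k H := rfl

theorem flip_eq {u : Fin n → ℂ} (hu : GU u) (H : Fin n → ℝ) {i j q r : Fin n} (hij : i ≠ j)
    {f : Iso2} (h1 : mv f (u i, H i) = (u j, H j)) (h2 : mv f (u j, H j) = (u i, H i)) :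
    ell3 (u i, H i) (u q, H q) (mv f (u r, H r)) = 2 * Fl u i j q r H := by
  have a : dt (u i) (u j) ≠ 0 := hu.dt0 _ _ hij
  unfold mv at h1 h2
  simp only [Prod.mk.injEq] at h1 h2
  obtain ⟨h3, h4⟩ := h1
  obtain ⟨h5, h6⟩ := h2
  rw [h3] at h4
  rw [h5] at h6
  have ni : (u i) * (starRingEnd ℂ) (u i) = 1 := by
    rw [Complex.mul_conj, Complex.normSq_eq_norm_sq, hu.nr]
    norm_num
  have nj : (u j) * (starRingEnd ℂ) (u j) = 1 := by
    rw [Complex.mul_conj, Complex.normSq_eq_norm_sq, hu.nr]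
    norm_num
  -- the linear part
  have id1 : (dt (u i) (u j)) • u r = (- dt (u j) (u r)) • u i + (- dt (u r) (u i)) • u j := by
    apply Complex.ext <;> simp [dt] <;> ring
  have hL : f.linearIsometryEquiv (u r) = Rn u i j r := by
    have e1 := congrArg f.linearIsometryEquiv id1
    rw [map_add, map_smul, map_smul, map_smul, h3, h5] at e1
    have e2 : (dt (u i) (u j)) • Rn u i j r
        = (- dt (u j) (u r)) • u j + (- dt (u r) (u i)) • u i := by
      have e3 := congrArg (fun z : ℂ => u i * u j * (starRingEnd ℂ) z) id1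
      simp only [map_add, Complex.real_smul, map_mul, Complex.conj_ofReal] at e3
      simp only [Complex.real_smul]
      push_cast at e3 ⊢
      unfold Rn
      linear_combination e3 + (- dt (u j) (u r) : ℂ) * u j * ni + (- dt (u r) (u i) : ℂ) * u i * nj
    exact smul_right_injective ℂ a (e1.trans e2.symm)
  have hc : ip (Rn u i j r) (f 0)
      = (H i - H j) * (dt (Rn u i j r) (u i + u j) / dt (u i) (u j)) := by
    rw [← mul_div_assoc, eq_div_iff a]
    have k1 : ip (u j) (f 0) = H j - H i := by linarith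
    have k2 : ip (u i) (f 0) = H i - H j := by linarith
    generalize Rn u i j r = R
    generalize f 0 = c at k1 k2
    have : ip R c * dt (u i) (u j) = - dt (u j) R * ip (u i) c - dt R (u i) * ip (u j) c := by
      unfold ip dt
      ring
    rw [this, k1, k2]
    unfold dt
    simp only [Complex.add_re, Complex.add_im]
    ring
  unfold mv ell3 Fl
  simp only
  rw [hL, hc]

theorem gen_of_gi [NeZero n] (hn : 3 ≤ n) {v : Fin n → ℂ} (hv : H62T.H85.CC v)
    (hg : GA (nrm v)) (hi : GI (nrm v) (off v)) : Gen (sides (nrm v) (off v)) := by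
  have hu : GU (nrm v) := ⟨hg, H62T.H85.norm_nrm hn hv⟩
  have hinj : Function.Injective fun i => ((nrm v i, off v i) : HP) := H62T.H85.side_inj hn hv
  set u := nrm v with hudef
  set H := off v with hHdef
  have idx : ∀ i j : Fin n, ((u i, H i) : HP) ≠ (u j, H j) → i ≠ j := by
    rintro i j h rfl
    exact h rfl
  have tri : ∀ a b c, Tri (sides u H) a b c → ∃ i j k, Di i j k ∧ (u i, H i) = a ∧
      (u j, H j) = b ∧ (u k, H k) = c := by
    rintro a b c ⟨ha, hb, hc, h1, h2, h3⟩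
    obtain ⟨i, rfl⟩ := mem_sides.1 ha
    obtain ⟨j, rfl⟩ := mem_sides.1 hb
    obtain ⟨k, rfl⟩ := mem_sides.1 hc
    exact ⟨i, j, k, ⟨idx _ _ h1, idx _ _ h2, idx _ _ h3⟩, rfl, rfl, rfl⟩
  refine ⟨pg_sides hn hv hinj, ?_, ?_⟩
  · refine ⟨?_, ?_, ?_, ?_, ?_⟩
    · intro s hs t ht hst
      obtain ⟨i, rfl⟩ := mem_sides.1 hs
      obtain ⟨j, rfl⟩ := mem_sides.1 ht
      exact hg.ne0 i j (idx _ _ hst)
    · intro s hs t ht hst
      obtain ⟨i, rfl⟩ := mem_sides.1 hs
      obtain ⟨j, rfl⟩ := mem_sides.1 ht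
      exact hu.iplt (idx _ _ hst)
    · intro s hs t ht s' hs' t' ht' hst hst' e
      obtain ⟨i, rfl⟩ := mem_sides.1 hs
      obtain ⟨j, rfl⟩ := mem_sides.1 ht
      obtain ⟨k, rfl⟩ := mem_sides.1 hs'
      obtain ⟨l, rfl⟩ := mem_sides.1 ht'
      rcases hg.inj i j k l (idx _ _ hst) (idx _ _ hst') e with ⟨rfl, rfl⟩ | ⟨rfl, rfl⟩
      · exact Or.inl ⟨rfl, rfl⟩
      · exact Or.inr ⟨rfl, rfl⟩
    · intro a b c h
      obtain ⟨i, j, k, hd, rfl, rfl, rfl⟩ := tri a b c h
      exact hg.tri i j k hd.1 hd.2.1 hd.2.2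
    · intro a ha b hb c hc d hd h1 h2 h3 h4 h5 h6
      obtain ⟨i, rfl⟩ := mem_sides.1 ha
      obtain ⟨j, rfl⟩ := mem_sides.1 hb
      obtain ⟨k, rfl⟩ := mem_sides.1 hc
      obtain ⟨l, rfl⟩ := mem_sides.1 hd
      exact hg.four i j k l (idx _ _ h1) (idx _ _ h2) (idx _ _ h3) (idx _ _ h4) (idx _ _ h5)
        (idx _ _ h6)
  · refine ⟨?_, ?_, ?_, ?_, ?_, ?_, ?_⟩
    · intro a b c a' b' c' h h' e
      obtain ⟨i, j, k, hd, rfl, rfl, rfl⟩ := tri _ _ _ h
      obtain ⟨i', j', k', hd', rfl, rfl, rfl⟩ := tri _ _ _ h'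
      rw [eA_eq hu H hd, eA_eq hu H hd'] at e
      by_contra hcon
      refine hi.aa i j k i' j' k' hd hd' ?_ (mul_left_cancel₀ two_ne_zero e)
      rintro ⟨rfl, ⟨rfl, rfl⟩ | ⟨rfl, rfl⟩⟩
      · exact hcon ⟨rfl, Or.inl ⟨rfl, rfl⟩⟩
      · exact hcon ⟨rfl, Or.inr ⟨rfl, rfl⟩⟩
    · intro a b c a' b' c' h h' e
      obtain ⟨i, j, k, hd, rfl, rfl, rfl⟩ := tri _ _ _ h
      obtain ⟨i', j', k', hd', rfl, rfl, rfl⟩ := tri _ _ _ h'
      rw [eB_eq hu H hd, eB_eq hu H hd'] at e
      by_contra hcon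
      refine hi.bb i j k i' j' k' hd hd' ?_ (mul_left_cancel₀ two_ne_zero e)
      rintro ⟨rfl, ⟨rfl, rfl⟩ | ⟨rfl, rfl⟩⟩
      · exact hcon ⟨rfl, Or.inl ⟨rfl, rfl⟩⟩
      · exact hcon ⟨rfl, Or.inr ⟨rfl, rfl⟩⟩
    · intro a b c a' b' c' h h' e
      obtain ⟨i, j, k, hd, rfl, rfl, rfl⟩ := tri _ _ _ h
      obtain ⟨i', j', k', hd', rfl, rfl, rfl⟩ := tri _ _ _ h'
      rw [eA_eq hu H hd, eB_eq hu H hd'] at e
      exact hi.ab i j k i' j' k' hd hd' (mul_left_cancel₀ two_ne_zero e)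
    · intro a b c a' b' c' h h' e
      obtain ⟨i, j, k, hd, rfl, rfl, rfl⟩ := tri _ _ _ h
      obtain ⟨i', j', k', hd', rfl, rfl, rfl⟩ := tri _ _ _ h'
      rw [ell3_eq, ell3_eq] at e
      have hs : Sa i j k i' j' k' := by
        by_contra hcon
        refine hi.ss i j k i' j' k' hd hd' hcon ?_
        rw [mul_left_cancel₀ two_ne_zero e]
      have key : ∀ a b c : Fin n, ∀ s : HP, (s = (u a, H a) ∨ s = (u b, H b) ∨ s = (u c, H c)) ↔
          ∃ m, (m = a ∨ m = b ∨ m = c) ∧ s = (u m, H m) := by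
        intro a b c s
        constructor
        · rintro (h | h | h)
          · exact ⟨a, Or.inl rfl, h⟩
          · exact ⟨b, Or.inr (Or.inl rfl), h⟩
          · exact ⟨c, Or.inr (Or.inr rfl), h⟩
        · rintro ⟨m, rfl | rfl | rfl, h⟩
          · exact Or.inl h
          · exact Or.inr (Or.inl h)
          · exact Or.inr (Or.inr h)
      intro s
      rw [key, key]
      constructor
      · rintro ⟨m, h1, h2⟩
        exact ⟨m, (hs m).1 h1, h2⟩
      · rintro ⟨m, h1, h2⟩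
        exact ⟨m, (hs m).2 h1, h2⟩
    · intro a b c a' b' c' h h' e
      obtain ⟨i, j, k, hd, rfl, rfl, rfl⟩ := tri _ _ _ h
      obtain ⟨i', j', k', hd', rfl, rfl, rfl⟩ := tri _ _ _ h'
      rw [ell3_eq, eA_eq hu H hd'] at e
      apply hi.sa i j k i' j' k' hd hd'
      rw [mul_left_cancel₀ two_ne_zero e, abs_abs]
    · intro a b c a' b' c' h h' e
      obtain ⟨i, j, k, hd, rfl, rfl, rfl⟩ := tri _ _ _ h
      obtain ⟨i', j', k', hd', rfl, rfl, rfl⟩ := tri _ _ _ h'
      rw [ell3_eq, eB_eq hu H hd'] at e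
      apply hi.sb i j k i' j' k' hd hd'
      rw [mul_left_cancel₀ two_ne_zero e, abs_abs]
    · intro i j q r a b c h h' hqr habc f hf hf' e
      obtain ⟨i, j, q, hd, rfl, rfl, rfl⟩ := tri _ _ _ h
      obtain ⟨r, rfl⟩ := mem_sides.1 h'.2.2.1
      have hd' : Di i j r := ⟨hd.1, idx _ _ h'.2.2.2.2.1, idx _ _ h'.2.2.2.2.2⟩
      obtain ⟨a, b, c, hd3, rfl, rfl, rfl⟩ := tri _ _ _ habc
      rw [ell3_eq, flip_eq hu H hd.1 hf hf'] at e
      apply hi.fl i j q r a b c hd hd' (idx _ _ hqr) hd3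
      rw [mul_left_cancel₀ two_ne_zero e]

/-- GENC: almost all convex polygons are generic -/
theorem genc (hang : AngStatement) : GencStatement := by
  intro n _ hn
  have h1 : ∀ᵐ p : (Fin n → ℝ) × (Fin n → ℝ), GA (un p.1) ∧ GI (un p.1) p.2 := by
    have h2 : ∀ᵐ p : (Fin n → ℝ) × (Fin n → ℝ), GA (un p.1) := by
      rw [Measure.volume_eq_prod]
      exact Measure.quasiMeasurePreserving_fst.ae (hang n)
    filter_upwards [h2, gi_ae hang] with p h3 h4 using ⟨h3, h4⟩
  have h5 := ae_chart (n := n) hn (G := fun u H => GA u ∧ GI u H) h1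
  filter_upwards [h5] with v hv hc
  exact gen_of_gi hn hc (hv hc).1 (hv hc).2

end Pool.Agent.AEU.H29
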