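import Pool.Agent.Helper29_AEU.GencEnd
import Pool.Agent.Helper75_AEU.Ang

/-!
Almost all convex polygons are generic.
-/

namespace Pool.Agent.AEU.H29

/-- GENC: almost all convex polygons are generic -/
theorem gencThm : GencStatement := genc H75.ang

end Pool.Agent.AEU.H29
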