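import Pool.Agent.Helper29_AEU.Stmt

/-!
Linear functionals of the support numbers which give the critical lengths, and their coefficients.
-/

namespace Pool.Agent.AEU.H29

open MeasureTheory Complex Filter Topology Pool.Agent.H16Iso Pool.Agent.H62T Pool.Agent.H16F

variable {n : ℕ}

theorem ae_lin_ne {l : (Fin n → ℝ) → ℝ} (h : IsLinearMap ℝ l) {m : Fin n}
    (hm : l (Pi.single m 1) ≠ 0) : ∀ᵐ H : Fin n → ℝ, l H ≠ 0 := by
  have h1 : (LinearMap.ker (h.mk' l)) ≠ ⊤ := by
    intro e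
    apply hm
    have : Pi.single m (1 : ℝ) ∈ LinearMap.ker (h.mk' l) := by
      rw [e]
      trivial
    simpa using this
  have h2 := Measure.addHaar_submodule (volume : Measure (Fin n → ℝ)) _ h1
  rw [ae_iff]
  refine measure_mono_null ?_ h2
  intro H hH
  simpa using hH

theorem ae_abs_ne {l l' : (Fin n → ℝ) → ℝ} (h : IsLinearMap ℝ l) (h' : IsLinearMap ℝ l')
    (hm : ∃ m, |l (Pi.single m 1)| ≠ |l' (Pi.single m 1)|) :
    ∀ᵐ H : Fin n → ℝ, |l H| ≠ |l' H| := by
  obtain ⟨m, hm⟩ := hm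
  have h1 : IsLinearMap ℝ (fun H => l H - l' H) :=
    ⟨fun x y => by rw [h.map_add, h'.map_add]; ring,
      fun c x => by rw [h.map_smul, h'.map_smul]; simp only [smul_eq_mul]; ring⟩
  have h2 : IsLinearMap ℝ (fun H => l H + l' H) :=
    ⟨fun x y => by rw [h.map_add, h'.map_add]; ring,
      fun c x => by rw [h.map_smul, h'.map_smul]; simp only [smul_eq_mul]; ring⟩
  have h3 : l (Pi.single m 1) - l' (Pi.single m 1) ≠ 0 := by
    intro e
    apply hm
    rw [sub_eq_zero.1 e]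
  have h4 : l (Pi.single m 1) + l' (Pi.single m 1) ≠ 0 := by
    intro e
    apply hm
    rw [eq_neg_of_add_eq_zero_left e, abs_neg]
  filter_upwards [ae_lin_ne h1 h3, ae_lin_ne h2 h4] with H e1 e2 e
  rcases abs_eq_abs.1 e with e | e
  · exact e1 (by rw [e]; ring)
  · exact e2 (by rw [e]; ring)

/-- the determinant of three lines -/
noncomputable def Dl (u : Fin n → ℂ) (i j k : Fin n) (H : Fin n → ℝ) : ℝ :=
  dt (u j) (u k) * H i + dt (u k) (u i) * H j + dt (u i) (u j) * H k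

/-- half the length of the orthic triangle -/
noncomputable def El (u : Fin n → ℂ) (i j k : Fin n) (H : Fin n → ℝ) : ℝ :=
  |dt (u j) (u k)| * H i + |dt (u k) (u i)| * H j + |dt (u i) (u j)| * H k

/-- absolute value of the coefficients of both functionals -/
noncomputable def ac (u : Fin n → ℂ) (i j k m : Fin n) : ℝ :=
  if m = i then |dt (u j) (u k)| else if m = j then |dt (u k) (u i)|
    else if m = k then |dt (u i) (u j)| else 0

theorem dt_comm' (a b : ℂ) : |dt a b| = |dt b a| := by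
  rw [← abs_neg]
  congr 1
  unfold dt
  ring

theorem Dl_lin (u : Fin n → ℂ) (i j k : Fin n) : IsLinearMap ℝ (Dl u i j k) :=
  ⟨fun x y => by simp only [Dl, Pi.add_apply]; ring,
    fun c x => by simp only [Dl, Pi.smul_apply, smul_eq_mul]; ring⟩

theorem El_lin (u : Fin n → ℂ) (i j k : Fin n) : IsLinearMap ℝ (El u i j k) :=
  ⟨fun x y => by simp only [El, Pi.add_apply]; ring,
    fun c x => by simp only [El, Pi.smul_apply, smul_eq_mul]; ring⟩

theorem abs_Dl_single (u : Fin n → ℂ) {i j k : Fin n} (hij : i ≠ j) (hik : i ≠ k) (hjk : j ≠ k)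
    (m : Fin n) : |Dl u i j k (Pi.single m 1)| = ac u i j k m := by
  unfold Dl ac
  by_cases h1 : m = i
  · subst h1
    simp [hij.symm, hik.symm]
  · by_cases h2 : m = j
    · subst h2
      simp [h1, hij, hjk.symm]
    · by_cases h3 : m = k
      · subst h3
        simp [h1, h2, hik, hjk]
      · simp [h1, h2, h3, Ne.symm h1, Ne.symm h2, Ne.symm h3]

theorem abs_El_single (u : Fin n → ℂ) {i j k : Fin n} (hij : i ≠ j) (hik : i ≠ k) (hjk : j ≠ k)
    (m : Fin n) : |El u i j k (Pi.single m 1)| = ac u i j k m := by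
  unfold El ac
  by_cases h1 : m = i
  · subst h1
    simp [hij.symm, hik.symm]
  · by_cases h2 : m = j
    · subst h2
      simp [h1, hij, hjk.symm]
    · by_cases h3 : m = k
      · subst h3
        simp [h1, h2, hik, hjk]
      · simp [h1, h2, h3, Ne.symm h1, Ne.symm h2, Ne.symm h3]

/-- three different indices -/
def Di (i j k : Fin n) : Prop := i ≠ j ∧ i ≠ k ∧ j ≠ k

/-- the same three indices -/
def Sa (i j k i' j' k' : Fin n) : Prop := ∀ m, (m = i ∨ m = j ∨ m = k) ↔ (m = i' ∨ m = j' ∨ m = k')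

theorem Sa.cases {i j k i' j' k' : Fin n} (h : Sa i j k i' j' k') (hd : Di i j k)
    (hd' : Di i' j' k') :
    (i' = i ∧ j' = j ∧ k' = k) ∨ (i' = i ∧ j' = k ∧ k' = j) ∨ (i' = j ∧ j' = i ∧ k' = k)
      ∨ (i' = j ∧ j' = k ∧ k' = i) ∨ (i' = k ∧ j' = i ∧ k' = j) ∨ (i' = k ∧ j' = j ∧ k' = i) := by
  obtain ⟨h1, h2, h3⟩ := hd
  obtain ⟨h4, h5, h6⟩ := hd'
  have e1 := (h i').2 (Or.inl rfl)
  have e2 := (h j').2 (Or.inr (Or.inl rfl))
  have e3 := (h k').2 (Or.inr (Or.inr rfl))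
  rcases e1 with rfl | rfl | rfl <;> rcases e2 with rfl | rfl | rfl <;>
    rcases e3 with rfl | rfl | rfl <;> simp_all

theorem ac_same (u : Fin n → ℂ) {i j k i' j' k' : Fin n} (h : Sa i j k i' j' k')
    (hd : Di i j k) (hd' : Di i' j' k') (m : Fin n) : ac u i j k m = ac u i' j' k' m := by
  obtain ⟨h1, h2, h3⟩ := id hd
  have s := h.cases hd hd'
  unfold ac
  rcases s with ⟨rfl, rfl, rfl⟩ | ⟨rfl, rfl, rfl⟩ | ⟨rfl, rfl, rfl⟩ | ⟨rfl, rfl, rfl⟩ |
    ⟨rfl, rfl, rfl⟩ | ⟨rfl, rfl, rfl⟩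
  all_goals
    split_ifs <;> simp_all [dt_comm']

end Pool.Agent.AEU.H29
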