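import Pool.Agent.Helper60_AEU.Stmt

/-!
Module LPS: from the blocks to the Laplace transform.
-/

namespace Pool.Agent.H60K.H29

open MeasureTheory Complex Filter Topology ProbabilityTheory
open scoped ENNReal NNReal

theorem integrable_pow_exp (p : ℕ) :
    IntegrableOn (fun t : ℝ => (1 + t) ^ p * Real.exp (-t)) (Set.Ioi 0) := by
  have h : ∀ k : ℕ, IntegrableOn (fun t : ℝ => t ^ k * Real.exp (-t)) (Set.Ioi 0) := by
    intro k
    have h1 := Real.GammaIntegral_convergent (s := (k : ℝ) + 1) (by positivity)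
    refine h1.congr_fun (fun t ht => ?_) measurableSet_Ioi
    simp only
    rw [add_sub_cancel_right, Real.rpow_natCast, mul_comm]
  have h2 : (fun t : ℝ => (1 + t) ^ p * Real.exp (-t))
      = fun t : ℝ => ∑ m ∈ Finset.range (p + 1), (p.choose m : ℝ) * (t ^ (p - m) * Real.exp (-t)) := by
    funext t
    rw [add_pow, Finset.sum_mul]
    refine Finset.sum_congr rfl fun m _ => ?_
    rw [one_pow]
    ring
  rw [h2]
  apply integrable_finsetSum
  intro m _
  exact (h (p - m)).const_mul _

theorem exp_amgm {κ l t : ℝ} (hκ : 1 ≤ κ) (ht : 0 < t) :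
    Real.exp (-(κ ^ 2 * t)) * Real.exp (-(l ^ 2 / (4 * t)))
      ≤ Real.exp l * Real.exp (-(κ * l)) * Real.exp (-t) := by
  rw [← Real.exp_add, ← Real.exp_add, ← Real.exp_add, Real.exp_le_exp]
  have h1 : (κ - 1) * l ≤ (κ - 1) ^ 2 * t + l ^ 2 / (4 * t) := by
    have h2 : (κ - 1) ^ 2 * t + l ^ 2 / (4 * t) - (κ - 1) * l
        = (2 * (κ - 1) * t - l) ^ 2 / (4 * t) := by
      field_simp
      ring
    have h3 : 0 ≤ (2 * (κ - 1) * t - l) ^ 2 / (4 * t) := by positivity
    linarith
  have h4 : (κ - 1) ^ 2 * t + t ≤ κ ^ 2 * t := by nlinarith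
  linarith

theorem exp_small {b x : ℝ} (hb : 0 < b) (hx : 0 < x) : Real.exp (-(b / x)) / x ≤ 1 / b := by
  have h1 : b / x < Real.exp (b / x) := by
    have := Real.add_one_lt_exp (x := b / x) (by positivity)
    linarith
  rw [Real.exp_neg, div_le_div_iff₀ hx hb, one_mul]
  have h2 : (Real.exp (b / x))⁻¹ * (b / x) ≤ 1 := by
    rw [inv_mul_le_iff₀ (Real.exp_pos _)]
    linarith
  have h3 : (Real.exp (b / x))⁻¹ * b = (Real.exp (b / x))⁻¹ * (b / x) * x := by
    field_simp
  rw [h3]
  nlinarith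

theorem lps : LpsStatement := by
  intro V T n p C l l0 ε hn hl hl0 hε hV hT H1 H2 H3
  have hn' : (0 : ℝ) < n := by exact_mod_cast hn
  have hC : 0 ≤ C := by
    have h1 := (abs_nonneg _).trans (H2 1 one_pos)
    have h2 : (0 : ℝ) < (1 + 1) ^ p * Real.exp (-(l0 ^ 2 / (4 * 1))) := by positivity
    rw [mul_assoc] at h1
    exact nonneg_of_mul_nonneg_left h1 h2
  set M := ∫ t in Set.Ioi (0 : ℝ), (1 + t) ^ p * Real.exp (-t) with hM
  have hM0 : 0 ≤ M := by
    apply setIntegral_nonneg measurableSet_Ioi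
    intro t ht
    have : (0 : ℝ) < t := ht
    positivity
  refine ⟨l0 ^ 2 / (8 * n * l), by positivity, fun c hc hcc => ?_⟩
  -- the constant
  set K := C * (8 / l0 ^ 2 + 1 / c + Real.exp l / c) with hK
  have hK0 : 0 ≤ K := by positivity
  refine ⟨K * M / ε, 1, one_pos, fun κ hκ => ?_⟩
  have hκ0 : 0 < κ := by linarith
  have ha : 0 < c / κ := by positivity
  set a := c / κ with hadef
  have hκa : κ / c = 1 / a := by
    rw [hadef]
    field_simp
  have ea : ∀ t, 0 < t → t ≤ n * a → Real.exp (-(l0 ^ 2 / (8 * t))) ≤ Real.exp (-(κ * l)) := by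
    intro t ht h
    rw [Real.exp_le_exp, neg_le_neg_iff, le_div_iff₀ (by positivity)]
    have h1 : c * (8 * n * l) < l0 ^ 2 := by rwa [lt_div_iff₀ (by positivity)] at hcc
    have h2 : κ * a = c := by
      rw [hadef]
      field_simp
    calc κ * l * (8 * t) ≤ κ * l * (8 * (n * a)) := by gcongr
      _ = (κ * a) * (8 * n * l) := by ring
      _ ≤ l0 ^ 2 := by
        rw [h2]
        exact h1.le
  have eb : ∀ t, 0 < t → Real.exp (-(κ ^ 2 * t)) ≤ Real.exp (-t) := by
    intro t ht
    rw [Real.exp_le_exp, neg_le_neg_iff]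
    nlinarith only [ht, mul_pos ht ht, one_le_pow₀ (n := 2) hκ]
  have ec : ∀ t : ℝ, 0 < t → Real.exp (-(l0 ^ 2 / (4 * t)))
      = Real.exp (-(l0 ^ 2 / (8 * t))) * Real.exp (-(l0 ^ 2 / (8 * t))) := by
    intro t ht
    rw [← Real.exp_add]
    congr 1
    field_simp
    ring
  have ed : ∀ t : ℝ, 0 < t → Real.exp (-(l0 ^ 2 / (8 * t))) / t ≤ 8 / l0 ^ 2 := by
    intro t ht
    have h := exp_small (b := l0 ^ 2 / 8) (x := t) (by positivity) ht
    have e1 : l0 ^ 2 / 8 / t = l0 ^ 2 / (8 * t) := by field_simp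
    rw [e1] at h
    refine h.trans (le_of_eq ?_)
    field_simp
  have e0 : ∀ t : ℝ, 0 < t → Real.exp (-(l0 ^ 2 / (8 * t))) ≤ 1 := by
    intro t ht
    rw [Real.exp_le_one_iff]
    have : 0 ≤ l0 ^ 2 / (8 * t) := by positivity
    linarith
  -- pointwise bounds
  have b1 : ∀ t, 0 < t → t ≤ n * a →
      Real.exp (-(κ ^ 2 * t)) * |V t| / t ≤ C * (8 / l0 ^ 2) * Real.exp (-(κ * l))
        * ((1 + t) ^ p * Real.exp (-t)) := by
    intro t ht h
    calc Real.exp (-(κ ^ 2 * t)) * |V t| / t
        ≤ Real.exp (-t) * (C * (1 + t) ^ p * Real.exp (-(l0 ^ 2 / (4 * t)))) / t := by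
          gcongr ?_ * ?_ / _
          · exact eb t ht
          · exact H2 t ht
      _ = C * (1 + t) ^ p * Real.exp (-t) * (Real.exp (-(l0 ^ 2 / (8 * t)))
            * (Real.exp (-(l0 ^ 2 / (8 * t))) / t)) := by
          rw [ec t ht]
          ring
      _ ≤ C * (1 + t) ^ p * Real.exp (-t) * (Real.exp (-(κ * l)) * (8 / l0 ^ 2)) := by
          gcongr _ * (?_ * ?_)
          · exact ea t ht h
          · exact ed t ht
      _ = _ := by ring
  have b1' : ∀ t, 0 < t → Real.exp (-(κ ^ 2 * t)) * |V t| / t ≤ C * (8 / l0 ^ 2)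
        * ((1 + t) ^ p * Real.exp (-t)) := by
    intro t ht
    calc Real.exp (-(κ ^ 2 * t)) * |V t| / t
        ≤ Real.exp (-t) * (C * (1 + t) ^ p * Real.exp (-(l0 ^ 2 / (4 * t)))) / t := by
          gcongr ?_ * ?_ / _
          · exact eb t ht
          · exact H2 t ht
      _ = C * (1 + t) ^ p * Real.exp (-t) * (Real.exp (-(l0 ^ 2 / (8 * t)))
            * (Real.exp (-(l0 ^ 2 / (8 * t))) / t)) := by
          rw [ec t ht]
          ring
      _ ≤ C * (1 + t) ^ p * Real.exp (-t) * (1 * (8 / l0 ^ 2)) := by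
          gcongr _ * (?_ * ?_)
          · exact e0 t ht
          · exact ed t ht
      _ = _ := by ring
  have b2 : ∀ t, a < t → t ≤ n * a →
      Real.exp (-(κ ^ 2 * t)) * |T a t| ≤ C * Real.exp (-(κ * l))
        * ((1 + t) ^ p * Real.exp (-t)) := by
    intro t hat h
    have ht : 0 < t := ha.trans hat
    calc Real.exp (-(κ ^ 2 * t)) * |T a t|
        ≤ Real.exp (-t) * (C * (1 + t) ^ p * Real.exp (-(l0 ^ 2 / (4 * t)))) := by
          gcongr ?_ * ?_
          · exact eb t ht
          · exact H3 a t ha hat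
      _ = C * (1 + t) ^ p * Real.exp (-t) * (Real.exp (-(l0 ^ 2 / (8 * t)))
            * Real.exp (-(l0 ^ 2 / (8 * t)))) := by
          rw [ec t ht]
          ring
      _ ≤ C * (1 + t) ^ p * Real.exp (-t) * (Real.exp (-(κ * l)) * 1) := by
          gcongr _ * (?_ * ?_)
          · exact ea t ht h
          · exact e0 t ht
      _ = _ := by ring
  have b2' : ∀ t, a < t → Real.exp (-(κ ^ 2 * t)) * |T a t| ≤ C
        * ((1 + t) ^ p * Real.exp (-t)) := by
    intro t hat
    have ht : 0 < t := ha.trans hat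
    calc Real.exp (-(κ ^ 2 * t)) * |T a t|
        ≤ Real.exp (-t) * (C * (1 + t) ^ p * Real.exp (-(l0 ^ 2 / (4 * t)))) := by
          gcongr ?_ * ?_
          · exact eb t ht
          · exact H3 a t ha hat
      _ = C * (1 + t) ^ p * Real.exp (-t) * (Real.exp (-(l0 ^ 2 / (8 * t)))
            * Real.exp (-(l0 ^ 2 / (8 * t)))) := by
          rw [ec t ht]
          ring
      _ ≤ C * (1 + t) ^ p * Real.exp (-t) * (1 * 1) := by
          gcongr _ * (?_ * ?_)
          · exact e0 t ht
          · exact e0 t ht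
      _ = _ := by ring
  have b3 : ∀ t, 0 < t → n * a ≤ t →
      |Real.exp (-(κ ^ 2 * t)) * V t / t - κ / c * (Real.exp (-(κ ^ 2 * t)) * T a t)|
        ≤ κ / c * (C * Real.exp l * Real.exp (-(κ * l)) * ((1 + t) ^ p * Real.exp (-t))) := by
    intro t ht h
    have e1 : Real.exp (-(κ ^ 2 * t)) * V t / t - κ / c * (Real.exp (-(κ ^ 2 * t)) * T a t)
        = -(κ / c * (Real.exp (-(κ ^ 2 * t)) * (T a t - a / t * V t))) := by
      rw [hκa]
      field_simp
      ring
    rw [e1, abs_neg, abs_mul, abs_mul, abs_of_pos (Real.exp_pos _), abs_of_pos (show 0 < κ / c by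
      positivity)]
    calc κ / c * (Real.exp (-(κ ^ 2 * t)) * |T a t - a / t * V t|)
        ≤ κ / c * (Real.exp (-(κ ^ 2 * t)) * (C * (1 + t) ^ p
            * Real.exp (-(l ^ 2 / (4 * t))))) := by
          gcongr
          exact H1 a t ha h
      _ = κ / c * (C * (1 + t) ^ p * (Real.exp (-(κ ^ 2 * t))
            * Real.exp (-(l ^ 2 / (4 * t))))) := by ring
      _ ≤ κ / c * (C * (1 + t) ^ p * (Real.exp l * Real.exp (-(κ * l)) * Real.exp (-t))) := by
          gcongr _ * (_ * ?_)
          exact exp_amgm hκ ht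
      _ = _ := by ring
  have hw := integrable_pow_exp p
  have mE : Measurable fun t : ℝ => Real.exp (-(κ ^ 2 * t)) := by fun_prop
  have mT : Measurable (T a) := hT.of_uncurry_left
  -- integrability
  have i1 : IntegrableOn (fun t => Real.exp (-(κ ^ 2 * t)) * V t / t) (Set.Ioi 0) := by
    refine Integrable.mono' (hw.const_mul (C * (8 / l0 ^ 2))) ?_ ?_
    · exact ((mE.mul hV).div measurable_id).aestronglyMeasurable
    · rw [ae_restrict_iff' measurableSet_Ioi]
      refine Eventually.of_forall fun t ht => ?_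
      have ht' : 0 < t := ht
      rw [Real.norm_eq_abs, abs_div, abs_mul, abs_of_pos (Real.exp_pos _), abs_of_pos ht']
      exact b1' t ht'
  have i2 : IntegrableOn (fun t => Real.exp (-(κ ^ 2 * t)) * T a t) (Set.Ioi a) := by
    refine Integrable.mono' ((hw.mono_set (Set.Ioi_subset_Ioi ha.le)).const_mul C) ?_ ?_
    · exact (mE.mul mT).aestronglyMeasurable
    · rw [ae_restrict_iff' measurableSet_Ioi]
      refine Eventually.of_forall fun t ht => ?_
      rw [Real.norm_eq_abs, abs_mul, abs_of_pos (Real.exp_pos _)]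
      exact b2' t ht
  have i3 : IntegrableOn ((Set.Ioi a).indicator fun t => Real.exp (-(κ ^ 2 * t)) * T a t)
      (Set.Ioi 0) := by
    rw [IntegrableOn, integrable_indicator_iff measurableSet_Ioi]
    exact i2.mono_measure Measure.restrict_le_self
  have e1 : PhiT V κ - κ / c * ∫ t in Set.Ioi a, Real.exp (-(κ ^ 2 * t)) * T a t
      = ∫ t in Set.Ioi (0 : ℝ), (Real.exp (-(κ ^ 2 * t)) * V t / t
        - κ / c * (Set.Ioi a).indicator (fun t => Real.exp (-(κ ^ 2 * t)) * T a t) t) := by
    rw [integral_sub i1 (i3.const_mul _), integral_const_mul, setIntegral_indicator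
      measurableSet_Ioi, Set.inter_eq_self_of_subset_right (Set.Ioi_subset_Ioi ha.le)]
    rfl
  rw [e1]
  have b4 : ∀ t ∈ Set.Ioi (0 : ℝ), ‖Real.exp (-(κ ^ 2 * t)) * V t / t
        - κ / c * (Set.Ioi a).indicator (fun t => Real.exp (-(κ ^ 2 * t)) * T a t) t‖
        ≤ K * κ * Real.exp (-(κ * l)) * ((1 + t) ^ p * Real.exp (-t)) := by
    intro t ht
    have ht' : 0 < t := ht
    rw [Real.norm_eq_abs]
    have hw0 : 0 ≤ (1 + t) ^ p * Real.exp (-t) := by positivity
    by_cases h : t ≤ n * a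
    · have h1 : |Real.exp (-(κ ^ 2 * t)) * V t / t| ≤ C * (8 / l0 ^ 2) * Real.exp (-(κ * l))
          * ((1 + t) ^ p * Real.exp (-t)) := by
        rw [abs_div, abs_mul, abs_of_pos (Real.exp_pos _), abs_of_pos ht']
        exact b1 t ht' h
      have h2 : |κ / c * (Set.Ioi a).indicator (fun t => Real.exp (-(κ ^ 2 * t)) * T a t) t|
          ≤ κ / c * (C * Real.exp (-(κ * l)) * ((1 + t) ^ p * Real.exp (-t))) := by
        rw [abs_mul, abs_of_pos (show 0 < κ / c by positivity)]
        gcongr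
        by_cases h3 : t ∈ Set.Ioi a
        · rw [Set.indicator_of_mem h3, abs_mul, abs_of_pos (Real.exp_pos _)]
          exact b2 t h3 h
        · rw [Set.indicator_of_notMem h3, abs_zero]
          positivity
      calc _ ≤ _ := abs_sub _ _
        _ ≤ _ := add_le_add h1 h2
        _ ≤ C * (8 / l0 ^ 2) * κ * Real.exp (-(κ * l)) * ((1 + t) ^ p * Real.exp (-t))
            + κ / c * (C * Real.exp (-(κ * l)) * ((1 + t) ^ p * Real.exp (-t))) := by
          gcongr ?_ * _ * _ + _
          nlinarith only [hκ, show 0 ≤ C * (8 / l0 ^ 2) by positivity]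
        _ = C * (8 / l0 ^ 2 + 1 / c) * (κ * Real.exp (-(κ * l))
            * ((1 + t) ^ p * Real.exp (-t))) := by
          field_simp
        _ ≤ K * (κ * Real.exp (-(κ * l)) * ((1 + t) ^ p * Real.exp (-t))) := by
          gcongr ?_ * _
          rw [hK]
          have : 0 ≤ C * (Real.exp l / c) := by positivity
          linarith
        _ = _ := by ring
    · push Not at h
      have h3 : t ∈ Set.Ioi a := by
        have : (1 : ℝ) ≤ n := by exact_mod_cast hn
        have : a ≤ n * a := by nlinarith only [ha, this]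
        exact lt_of_le_of_lt this h
      rw [Set.indicator_of_mem h3]
      refine (b3 t ht' h.le).trans ?_
      calc κ / c * (C * Real.exp l * Real.exp (-(κ * l)) * ((1 + t) ^ p * Real.exp (-t)))
          = C * (Real.exp l / c) * (κ * Real.exp (-(κ * l)) * ((1 + t) ^ p * Real.exp (-t))) := by
            field_simp
        _ ≤ K * (κ * Real.exp (-(κ * l)) * ((1 + t) ^ p * Real.exp (-t))) := by
          gcongr ?_ * _
          rw [hK]
          have : 0 ≤ C * (8 / l0 ^ 2 + 1 / c) := by positivity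
          linarith
        _ = _ := by ring
  have b5 := norm_integral_le_of_norm_le (hw.const_mul (K * κ * Real.exp (-(κ * l))))
    (by
      rw [ae_restrict_iff' measurableSet_Ioi]
      exact Eventually.of_forall b4)
  rw [Real.norm_eq_abs, integral_const_mul] at b5
  refine b5.trans ?_
  rw [← hM]
  have h1 : κ ≤ Real.exp (κ * ε) / ε := by
    rw [le_div_iff₀ hε]
    have := Real.add_one_le_exp (κ * ε)
    linarith
  calc K * κ * Real.exp (-(κ * l)) * M
      ≤ K * (Real.exp (κ * ε) / ε) * Real.exp (-(κ * l)) * M := by gcongr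
    _ = K * M / ε * (Real.exp (κ * ε) * Real.exp (-(κ * l))) := by ring
    _ = _ := by
      rw [← Real.exp_add]
      congr 2
      ring

end Pool.Agent.H60K.H29
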