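import Pool.Agent.Helper29_AEU.Chart
import Pool.Agent.Helper25_AEU.Defs

/-!
Squad AEU, Part IV (c): almost all convex polygons are generic. Statements.
-/

namespace Pool.Agent.AEU.H29

open MeasureTheory Complex Filter Topology Pool.Agent.H16Iso Pool.Agent.H62T Pool.Agent.H16F

/-- genericity of the unit normals -/
structure GA {n : ℕ} (u : Fin n → ℂ) : Prop where
  ne0 : ∀ i j, i ≠ j → ip (u i) (u j) ≠ 0
  dt0 : ∀ i j, i ≠ j → dt (u i) (u j) ≠ 0
  inj : ∀ i j k l, i ≠ j → k ≠ l → |ip (u i) (u j)| = |ip (u k) (u l)| →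
    (i = k ∧ j = l) ∨ (i = l ∧ j = k)
  tri : ∀ i j k, i ≠ j → i ≠ k → j ≠ k →
    |dt (u i) (u k)| ≠ |dt (u i) (u j)| * |dt (u j) (u k)|
  four : ∀ i j k l, i ≠ j → i ≠ k → i ≠ l → j ≠ k → j ≠ l → k ≠ l →
    u i * u k ≠ u j * u l ∧ u i * u k ≠ -(u j * u l)

/-- ANG: almost all families of angles are generic -/
def AngStatement : Prop := ∀ n : ℕ, ∀ᵐ θ : Fin n → ℝ, GA (fun i => Complex.exp (θ i * I))

/-- GENC: almost all convex polygons are generic -/
def GencStatement : Prop :=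
  ∀ (n : ℕ) [NeZero n], 3 ≤ n → ∀ᵐ v : Fin n → ℂ, H1Gen.CCW v →
    Gen (sides (H62T.H85.nrm v) (H62T.H85.off v))

end Pool.Agent.AEU.H29
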